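import Pool.Agent.Helper17.PP2.Goals
import Pool.Agent.Helper74.PP.COSC

/-!
# Project PP, stage 3 (R), packet PP2-R_FUL: expansion of the condition at `q`
-/

namespace Pool.Agent.Helper86.PP2

open Finset Pool.Agent.Helper17.PP Pool.Agent.Helper17.PP0 Pool.Agent.Helper17.PP2
  Pool.Agent.Helper74.PP

section

variable {p : ℕ} {B B₀ k U Λ C : Type} [Field k] [AddCommGroup U] [Module k U]
    [AddCommGroup Λ] [Module k Λ] [AddCommGroup C] (S : Sys p B B₀ k U Λ C)

theorem cutc_eq_trc (b : Finset B) (q : B) (t : k) (c : B → k) (q' : B) (hq' : q' ∈ b) :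
    cutc S (S.bl q) q t c q' = S.trc b q t c q' := by
  classical
  unfold cutc Sys.trc
  by_cases h : q' = q
  · rw [if_pos h, if_pos h]
  · rw [if_neg h, if_neg h]
    by_cases h2 : S.spl q' ∧ S.bl q' < S.bl q
    · rw [if_pos h2, if_pos]
      rw [Sys.rs, mem_filter, mem_erase]
      exact ⟨⟨h, hq'⟩, h2⟩
    · rw [if_neg h2, if_neg]
      intro h3
      rw [Sys.rs, mem_filter] at h3
      exact h2 h3.2

variable [Algebra (ZMod p) k]

theorem R_congr (b : Finset B) (x : U) (c c' : B → k) (q : B) (hq : q ∈ b)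
    (h : ∀ q' ∈ b, c q' = c' q') : S.R b x c q = S.R b x c' q := by
  classical
  unfold Sys.R
  rw [h q hq]
  congr 2
  apply Finset.sum_congr rfl
  intro q' hq'
  rw [h q' (Finset.mem_of_mem_erase hq')]

theorem ph_eq (ψ : AddChar k ℂ) (χ : AddChar Λ ℂ) (E : ℕ) (b : Finset B) (q : B) (hq : q ∈ b)
    (x : U) (t s : k) (c y : B → k) :
    ph S ψ χ b x (cutc S (S.bl q) q t c) (cuty S E (S.bl q) q s y) =
      χ (S.lam₀ x + ∑ q' ∈ b, S.lam q' (S.trc b q t c q')) *
        (ψ (s * S.R b x (S.trc b q t c) q) *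
          ∏ q' ∈ S.rg E b q, ψ (y q' * S.R b x (S.trc b q t c) q')) := by
  classical
  have h1 := cutc_eq_trc S b q t c
  have h2 : ∀ q' ∈ b, S.R b x (cutc S (S.bl q) q t c) q' = S.R b x (S.trc b q t c) q' :=
    fun q' hq' => R_congr S b x _ _ q' hq' h1
  unfold ph
  rw [Finset.sum_congr rfl (fun q' hq' => by rw [h1 q' hq']),
    Finset.prod_congr rfl (fun q' hq' => by rw [h2 q' hq']),
    ← Finset.mul_prod_erase b _ hq]
  have h3 : cuty S E (S.bl q) q s y q = s := by
    unfold cuty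
    rw [if_pos rfl]
  rw [h3]
  congr 2
  rw [Sys.rg, Finset.prod_filter]
  apply Finset.prod_congr rfl
  intro q' hq'
  rw [mem_erase] at hq'
  by_cases h4 : S.spl q' ∧ S.bl q' ≠ S.bl q ∧ S.bl q' ≤ th E (S.bl q)
  · rw [if_pos h4]
    have h5 : cuty S E (S.bl q) q s y q' = y q' := by
      unfold cuty
      rw [if_neg hq'.1, if_pos h4]
    rw [h5]
  · rw [if_neg h4]
    have h5 : cuty S E (S.bl q) q s y q' = 0 := by
      unfold cuty
      rw [if_neg hq'.1, if_neg h4]
    rw [h5, zero_mul, AddChar.map_zero_eq_one]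

theorem isPre_iff (E : ℕ) (b : Finset B) (q : B) (x : U) (t : k) (ht : t ≠ 0) (c : B → k) :
    S.IsPre E b q x (S.trc b q t c) ↔
      S.lam₀ x + ∑ q' ∈ b, S.lam q' (S.trc b q t c q') = 0 ∧
        ∀ q' ∈ S.rg E b q, S.R b x (S.trc b q t c) q' = 0 := by
  classical
  constructor
  · intro h
    exact ⟨h.lam, h.loc⟩
  · rintro ⟨h1, h2⟩
    refine ⟨?_, ?_, h1, h2⟩
    · intro q' hq'
      change (if q' = q then t else if q' ∈ S.rs b q then c q' else 0) ≠ 0 at hq'
      by_cases c1 : q' = q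
      · exact Or.inl c1
      · rw [if_neg c1] at hq'
        by_cases c2 : q' ∈ S.rs b q
        · exact Or.inr c2
        · rw [if_neg c2] at hq'
          exact absurd rfl hq'
    · change (if q = q then t else if q ∈ S.rs b q then c q else 0) ≠ 0
      rw [if_pos rfl]
      exact ht

theorem rg_sub (E : ℕ) (b : Finset B) (q : B) : S.rg E b q ⊆ b := by
  classical
  intro x hx
  rw [Sys.rg, mem_filter] at hx
  exact Finset.mem_of_mem_erase hx.1

open Classical in
/-- The sum over the pairs with `IsPre` of the character at the condition at `q`. -/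
theorem ful_eq [Fintype k] [Fintype U] [Fintype Λ] (hlab : C_LAB) (ψ : AddChar k ℂ)
    (hψ : ψ ≠ 1) (E : ℕ) (P b : Finset B) (q : B) (hb : b ⊆ P) (hq : q ∈ b) (s : k) :
    ful S ψ E P b q s (fun _ _ => True) =
      ∑ x : U, ∑ c ∈ lab k b, if S.IsPre E b q x c then ψ (s * S.R b x c q) else 0 := by
  have hP : ((lab k P).card : ℂ) ≠ 0 := by
    rw [(hlab B k P).1]
    push_cast
    exact pow_ne_zero _ (Nat.cast_ne_zero.mpr Fintype.card_ne_zero)
  have hΛ : (Fintype.card Λ : ℂ) ≠ 0 := Nat.cast_ne_zero.mpr Fintype.card_ne_zero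
  have hrg : S.rg E b q ⊆ P := (rg_sub S E b q).trans hb
  unfold ful
  simp only [Finset.filter_true]
  rw [Finset.mul_sum]
  apply Finset.sum_congr rfl
  intro x _
  have h1 := sum_trc S hlab P b q hb hq
    (fun c => if S.IsPre E b q x c then ψ (s * S.R b x c q) else 0)
  have h2 : ∑ c ∈ lab k b with (c q ≠ 0 ∧ ∀ q', c q' ≠ 0 → q' = q ∨ q' ∈ S.rs b q),
      (if S.IsPre E b q x c then ψ (s * S.R b x c q) else 0) =
      ∑ c ∈ lab k b, (if S.IsPre E b q x c then ψ (s * S.R b x c q) else 0) := by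
    apply Finset.sum_filter_of_ne
    intro c _ hc
    by_cases h3 : S.IsPre E b q x c
    · exact ⟨h3.ne, h3.supp⟩
    · exact absurd (if_neg h3) hc
  rw [← h2, h1, Finset.mul_sum]
  apply Finset.sum_congr rfl
  intro t ht
  rw [mem_filter] at ht
  have h4 : ∑ χ : AddChar Λ ℂ, ∑ c ∈ lab k P, ∑ y ∈ lab k P,
      ph S ψ χ b x (cutc S (S.bl q) q t c) (cuty S E (S.bl q) q s y) =
      ∑ c ∈ lab k P, (if S.IsPre E b q x (S.trc b q t c) then
        ψ (s * S.R b x (S.trc b q t c) q) else 0) *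
          ((Fintype.card Λ : ℂ) * ((lab k P).card : ℂ)) := by
    rw [Finset.sum_comm]
    apply Finset.sum_congr rfl
    intro c _
    have h5 : ∀ χ : AddChar Λ ℂ, ∑ y ∈ lab k P,
        ph S ψ χ b x (cutc S (S.bl q) q t c) (cuty S E (S.bl q) q s y) =
        χ (S.lam₀ x + ∑ q' ∈ b, S.lam q' (S.trc b q t c q')) *
          (ψ (s * S.R b x (S.trc b q t c) q) *
            (if ∀ q' ∈ S.rg E b q, S.R b x (S.trc b q t c) q' = 0 then
              ((lab k P).card : ℂ) else 0)) := by
      intro χ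
      rw [Finset.sum_congr rfl (fun y _ => ph_eq S ψ χ E b q hq x t s c y),
        ← Finset.mul_sum, ← Finset.mul_sum,
        sum_ind hlab ψ hψ P (S.rg E b q) hrg (fun q' => S.R b x (S.trc b q t c) q')]
    rw [Finset.sum_congr rfl (fun χ _ => h5 χ), ← Finset.sum_mul, AddChar.sum_apply_eq_ite]
    have h6 := isPre_iff S E b q x t ht.2 c
    by_cases c1 : S.lam₀ x + ∑ q' ∈ b, S.lam q' (S.trc b q t c q') = 0
    · by_cases c2 : ∀ q' ∈ S.rg E b q, S.R b x (S.trc b q t c) q' = 0
      · rw [if_pos c1, if_pos c2, if_pos (h6.mpr ⟨c1, c2⟩)]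
        ring
      · rw [if_neg c2, if_neg (fun h => c2 (h6.mp h).2)]
        ring
    · rw [if_neg c1, if_neg (fun h => c1 (h6.mp h).1)]
      ring
  rw [h4, ← Finset.sum_mul]
  field_simp

end

theorem r_ful (hlab : C_LAB) : Pool.Agent.Helper17.PP2.R_FUL := by
  classical
  intro p hpF B B₀ k U Λ C _ _ _ _ _ _ _ _ _ _ S ψ hψ E P b q hb hq hth
  have hQ : (Fintype.card k : ℂ) ≠ 0 := Nat.cast_ne_zero.mpr Fintype.card_ne_zero
  have hf := ful_eq S hlab ψ hψ E P b q hb hq
  have hprim : ψ.IsPrimitive := AddChar.IsPrimitive.of_ne_one hψ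
  have hc1 : (S.cnt E b q : ℂ) = ful S ψ E P b q 0 (fun _ _ => True) := by
    rw [hf 0, Sys.cnt, Finset.card_filter, Finset.sum_product]
    push_cast
    apply Finset.sum_congr rfl
    intro x _
    apply Finset.sum_congr rfl
    intro c _
    rw [zero_mul, AddChar.map_zero_eq_one]
  have hc2 : (S.cnt₂ E b q : ℂ) * Fintype.card k =
      ∑ s : k, ful S ψ E P b q s (fun _ _ => True) := by
    rw [Finset.sum_congr rfl (fun s _ => hf s), Finset.sum_comm, Sys.cnt₂, Finset.card_filter,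
      Finset.sum_product]
    push_cast
    rw [Finset.sum_mul]
    apply Finset.sum_congr rfl
    intro x _
    rw [Finset.sum_mul, Finset.sum_comm]
    apply Finset.sum_congr rfl
    intro c _
    by_cases h1 : S.IsPre E b q x c
    · have h2 : ∀ s : k, (if S.IsPre E b q x c then ψ (s * S.R b x c q) else 0) =
          ψ (s * S.R b x c q) := fun s => if_pos h1
      rw [Finset.sum_congr rfl (fun s _ => h2 s), AddChar.sum_mulShift _ hprim]
      by_cases h3 : S.R b x c q = 0
      · rw [if_pos ⟨h1, h3⟩, if_pos h3, one_mul]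
      · rw [if_neg (fun h => h3 h.2), if_neg h3, zero_mul, Nat.cast_zero]
    · rw [if_neg (fun h => h1 h.1), zero_mul]
      symm
      apply Finset.sum_eq_zero
      intro s _
      exact if_neg h1
  have h3 : (S.cnt₂ E b q : ℂ) * Fintype.card k = (S.cnt E b q : ℂ) +
      ∑ s : k with s ≠ 0, ful S ψ E P b q s (fun _ _ => True) := by
    rw [hc2, hc1, Finset.filter_ne']
    exact (Finset.add_sum_erase univ (fun s => ful S ψ E P b q s (fun _ _ => True))
      (mem_univ (0 : k))).symm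
  have h4 := congrArg Complex.re h3
  rw [Complex.add_re, Complex.re_sum, Complex.natCast_re] at h4
  have h5 : ((S.cnt₂ E b q : ℂ) * (Fintype.card k : ℂ)).re =
      (S.cnt₂ E b q : ℝ) * (Fintype.card k : ℝ) := by
    rw [← Nat.cast_mul, Complex.natCast_re, Nat.cast_mul]
  rw [h5] at h4
  have hQr : (Fintype.card k : ℝ) ≠ 0 := Nat.cast_ne_zero.mpr Fintype.card_ne_zero
  rw [← mul_add, ← h4]
  field_simp

end Pool.Agent.Helper86.PP2
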